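import Mathlib

set_option autoImplicit false
open MeasureTheory Filter Topology Set
open scoped ZeroAtInfty ENNReal

namespace Pool.Agent.Results.MP_8cea72_an.No

/-- lower `f`-density -/
noncomputable def ld (f : ℝ → ℝ) (A : Set ℝ) : ℝ≥0∞ :=
  liminf (fun t : ℝ => volume (A ∩ Icc 0 (f t)) / ENNReal.ofReal t) atTop

/-- `f`-distributional chaos -/
def DC {X : Type} [NormedAddCommGroup X] [NormedSpace ℝ X] (T : ℝ → X →L[ℝ] X) (f : ℝ → ℝ) :
    Prop :=
  ∃ S : Set X, ¬ S.Countable ∧ ∃ σ > 0, ∀ ε > 0, ∀ x ∈ S, ∀ y ∈ S, x ≠ y →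
    ld f {t | 0 ≤ t ∧ dist (T t x) (T t y) < σ} = 0 ∧
    ld f {t | 0 ≤ t ∧ ε ≤ dist (T t x) (T t y)} = 0

abbrev X : Type := C₀(ℕ, ℝ × ℝ)

lemma ap_le (x : X) (j : ℕ) : ‖x j‖ ≤ ‖x‖ := x.toBCF.norm_coe_le_norm j

lemma nm_le (x : X) {C : ℝ} (h : ∀ j, ‖x j‖ ≤ C) : ‖x‖ ≤ C :=
  (BoundedContinuousFunction.norm_le ((norm_nonneg _).trans (h 0))).2 h

lemma tz (x : X) : Tendsto x atTop (𝓝 0) := by
  simpa using x.zero_at_infty'

def mk (g : ℕ → ℝ × ℝ) (h : Tendsto g atTop (𝓝 0)) : X :=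
  ⟨⟨g, continuous_of_discreteTopology⟩, by simpa using h⟩

noncomputable def u (j : ℕ) : ℝ := 2 ^ (3 * j ^ 2)
noncomputable def p (j : ℕ) : ℝ := u j * (2 ^ j) ^ 2
noncomputable def s (j : ℕ) : ℝ := 4 * u j * (2 ^ j) ^ 5

lemma u1 (j : ℕ) : 1 ≤ u j := one_le_pow₀ (by norm_num)
lemma a1 (j : ℕ) : (1 : ℝ) ≤ 2 ^ j := one_le_pow₀ (by norm_num)
lemma p1 (j : ℕ) : 1 ≤ p j := one_le_mul_of_one_le_of_one_le (u1 j) (one_le_pow₀ (a1 j))
lemma u_succ (j : ℕ) : u (j + 1) = 2 * 2 ^ j * s j := by unfold s u; ring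
lemma u_mono {i j : ℕ} (h : i ≤ j) : u i ≤ u j := by unfold u; gcongr; norm_num

noncomputable def B (j : ℕ) (t : ℝ) (w : ℝ × ℝ) : ℝ × ℝ :=
  Real.exp (-(t / p j)) • (w.1, w.2 + t / u j * w.1)

lemma B_le (j : ℕ) (t : ℝ) (w : ℝ × ℝ) :
    ‖B j t w‖ ≤ Real.exp (-(t / p j)) * (1 + |t| / u j) * ‖w‖ := by
  have h0 := u1 j
  rw [B, norm_smul, Real.norm_of_nonneg (Real.exp_pos _).le, mul_assoc]
  gcongr
  have h1 := norm_fst_le w
  have h2 := norm_snd_le w
  have h3 : 0 ≤ |t| / u j := by positivity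
  refine max_le (by nlinarith [norm_nonneg w]) ((norm_add_le _ _).trans ?_)
  rw [norm_mul, norm_div, Real.norm_of_nonneg (by linarith : 0 ≤ u j), Real.norm_eq_abs t]
  nlinarith

lemma ex_le (j : ℕ) (t : ℝ) : |-(t / p j)| ≤ |t| := by
  rw [abs_neg, abs_div, abs_of_pos (by linarith [p1 j] : 0 < p j)]
  exact div_le_self (abs_nonneg _) (p1 j)

lemma B_le' (j : ℕ) (t : ℝ) (w : ℝ × ℝ) : ‖B j t w‖ ≤ Real.exp |t| * (1 + |t|) * ‖w‖ := by
  have h0 := u1 j
  refine (B_le j t w).trans ?_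
  gcongr
  · exact (le_abs_self _).trans (ex_le j t)
  · exact div_le_self (abs_nonneg _) h0

noncomputable def T (t : ℝ) : X →L[ℝ] X :=
  LinearMap.mkContinuous
    { toFun := fun x => mk (fun j => B j t (x j)) (squeeze_zero_norm (fun j => B_le' j t _)
        (by simpa using (tz x).norm.const_mul (Real.exp |t| * (1 + |t|))))
      map_add' := fun x y => by ext j <;> simp [mk, B] <;> ring
      map_smul' := fun c x => by ext j <;> simp [mk, B] <;> ring }
    (Real.exp |t| * (1 + |t|)) (fun x => nm_le _ fun j => (B_le' j t _).trans (by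
      gcongr; exact ap_le x j))

lemma T_ap (t : ℝ) (x : X) (j : ℕ) : T t x j = B j t (x j) := rfl

lemma T_add (a b : ℝ) : T (a + b) = (T a).comp (T b) := by
  ext x j <;> simp [T_ap, B, add_div, Real.exp_add] <;> ring

lemma T_zero : T 0 = ContinuousLinearMap.id ℝ X := by
  ext x j <;> simp [T_ap, B]

lemma T_sub (t : ℝ) (h : |t| ≤ 1) (x : X) : ‖T t x - x‖ ≤ 5 * |t| * ‖x‖ := by
  refine nm_le _ fun j => ?_
  have h0 := u1 j
  have h1 := (ex_le j t).trans h
  have h2 := Real.abs_exp_sub_one_le h1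
  have h3 := ex_le j t
  have h4 : Real.exp (-(t / p j)) ≤ 3 := by linarith [le_abs_self (Real.exp (-(t / p j)) - 1)]
  have : (T t x - x) j = (Real.exp (-(t / p j)) - 1) • x j +
      (Real.exp (-(t / p j)) * (t / u j)) • ((0 : ℝ), (x j).1) := by
    ext <;> simp [T_ap, B] <;> ring
  rw [this]
  refine (norm_add_le _ _).trans ?_
  have h5 : ‖((0 : ℝ), (x j).1)‖ ≤ ‖x‖ := by simpa using (norm_fst_le _).trans (ap_le x j)
  have h6 : |t / u j| ≤ |t| := by
    rw [abs_div, abs_of_pos (by linarith : 0 < u j)]; exact div_le_self (abs_nonneg _) h0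
  rw [norm_smul, norm_smul, norm_mul, Real.norm_of_nonneg (Real.exp_pos _).le, Real.norm_eq_abs,
    Real.norm_eq_abs]
  calc _ ≤ (2 * |t|) * ‖x‖ + 3 * |t| * ‖x‖ := by
        gcongr
        · linarith
        · exact ap_le x j
    _ = _ := by ring

lemma T_cont (x : X) : Continuous fun t => T t x := by
  refine continuous_iff_continuousAt.2 fun a => tendsto_iff_norm_sub_tendsto_zero.2 ?_
  have h1 : Tendsto (fun t : ℝ => |t - a|) (𝓝 a) (𝓝 0) := by
    simpa using ((continuous_id.sub continuous_const).abs.tendsto a :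
      Tendsto (fun t : ℝ => |t - a|) _ _)
  refine squeeze_zero' (Eventually.of_forall fun _ => norm_nonneg _)
    ((h1.eventually_le_const one_pos).mono fun t ht => ?_)
    (by simpa using (h1.const_mul 5).mul_const ‖T a x‖)
  have := T_sub (t - a) ht (T a x)
  rwa [← ContinuousLinearMap.comp_apply, ← T_add, sub_add_cancel, mul_assoc, ← mul_assoc] at this

lemma dec {i j : ℕ} (h : i ≤ j) {t : ℝ} (ht : s j ≤ t) (w : ℝ × ℝ) :
    ‖B i t w‖ ≤ (2 ^ j)⁻¹ * ‖w‖ := by
  refine (B_le i t w).trans (mul_le_mul_of_nonneg_right ?_ (norm_nonneg _))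
  have h0 := u1 i
  have h1 := a1 i
  have h2 : (2 : ℝ) ^ i ≤ 2 ^ j := by gcongr; norm_num
  have h3 : 4 * u i * (2 ^ i) ^ 4 * 2 ^ j ≤ t := by
    refine le_trans ?_ ht
    rw [s, pow_succ _ 4, ← mul_assoc]
    gcongr
    · linarith [u1 j]
    · exact u_mono h
  have hp := p1 i
  set a : ℝ := 2 ^ i
  set b : ℝ := 2 ^ j
  have ht0 : 0 < t := lt_of_lt_of_le (by positivity) h3
  set τ := t / p i with hτ
  have h4 : |t| / u i = a ^ 2 * τ := by rw [abs_of_pos ht0, hτ, p]; field_simp; rfl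
  have h5 : 4 * a ^ 2 * b ≤ τ := by
    rw [hτ, le_div_iff₀ (by linarith), p]; refine le_of_eq_of_le ?_ h3; ring
  have h6 := Real.quadratic_le_exp_of_nonneg (by positivity : 0 ≤ τ)
  have h7 : 1 ≤ a ^ 2 := one_le_pow₀ h1
  have hb : 1 ≤ b := h1.trans h2
  rw [h4, Real.exp_neg, inv_mul_le_iff₀ (Real.exp_pos _), ← div_eq_mul_inv, le_div_iff₀ (by linarith)]
  have h8 : 0 < a ^ 2 * b := by positivity
  nlinarith [mul_le_mul_of_nonneg_left h5 (by positivity : 0 ≤ τ)]

lemma sm {i j : ℕ} (h : j ≤ i) {t : ℝ} (h0 : 0 ≤ t) (ht : t ≤ u j) (w : ℝ × ℝ) :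
    ‖B i t w‖ ≤ 2 * ‖w‖ := by
  refine (B_le i t w).trans (mul_le_mul_of_nonneg_right ?_ (norm_nonneg _))
  have h1 : |t| / u i ≤ 1 := by
    rw [abs_of_nonneg h0, div_le_one (by linarith [u1 i])]; exact ht.trans (u_mono h)
  have h2 : Real.exp (-(t / p i)) ≤ 1 := by
    have := p1 i
    rw [Real.exp_le_one_iff, neg_nonpos]; positivity
  have h3 : 0 ≤ |t| / u i := by have := u1 i; positivity
  nlinarith [Real.exp_pos (-(t / p i))]

lemma a_top : Tendsto (fun j : ℕ => (2 : ℝ) ^ j) atTop atTop :=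
  tendsto_pow_atTop_atTop_of_one_lt (by norm_num)

lemma s_pos (j : ℕ) : 0 < s j := by have := u1 j; unfold s; positivity

lemma key (x : X) {σ : ℝ} (hσ : 0 < σ) :
    ∀ᶠ j in atTop, ∀ t ∈ Icc (s j) (u (j + 1)), ‖T t x‖ < σ := by
  have h1 : Tendsto (fun j : ℕ => ((2 : ℝ) ^ j)⁻¹ * ‖x‖) atTop (𝓝 0) := by
    simpa using a_top.inv_tendsto_atTop.mul_const ‖x‖
  have h2 : Tendsto (fun j : ℕ => 2 * ‖x j‖) atTop (𝓝 0) := by
    simpa using (tz x).norm.const_mul 2
  obtain ⟨J, hJ⟩ := eventually_atTop.1 (h2.eventually_le_const (half_pos hσ))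
  filter_upwards [h1.eventually_le_const (half_pos hσ), eventually_ge_atTop J] with j a b t ht
  refine lt_of_le_of_lt (nm_le _ fun i => ?_) (half_lt_self hσ)
  rw [T_ap]
  rcases le_or_gt i j with h | h
  · exact (dec h ht.1 _).trans (le_trans (by gcongr; exact ap_le x i) a)
  · exact (sm h ((s_pos j).le.trans ht.1) ht.2 _).trans (hJ i (by omega))

lemma ld_zero {A : Set ℝ} {τ b : ℕ → ℝ} (hτ : Tendsto τ atTop atTop)
    (hb : Tendsto b atTop (𝓝 0))
    (h : ∀ᶠ j in atTop, A ∩ Icc 0 (τ j) ⊆ Icc 0 (b j * τ j)) : ld (fun t => 1 + t) A = 0 := by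
  refine le_antisymm (ENNReal.le_of_forall_pos_le_add fun ε hε _ => ?_) bot_le
  rw [zero_add]
  refine liminf_le_of_frequently_le' ((tendsto_atTop_add_const_right _ (-1) hτ).frequently
    (Eventually.frequently ?_))
  have hε' : (0 : ℝ) < ε := hε
  filter_upwards [h, hτ.eventually_ge_atTop 2, hb.eventually_le_const (half_pos hε')] with j a c d
  rw [show 1 + (τ j + -1) = τ j by ring]
  refine ENNReal.div_le_of_le_mul ((measure_mono a).trans ?_)
  rw [Real.volume_Icc, ← ENNReal.ofReal_coe_nnreal, ← ENNReal.ofReal_mul hε'.le]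
  exact ENNReal.ofReal_le_ofReal (by nlinarith)

noncomputable def z : X := mk (fun j => ((2 ^ j)⁻¹, 0)) (by
  simpa [Prod.mk_zero_zero] using a_top.inv_tendsto_atTop.prodMk_nhds (tendsto_const_nhds (x := (0 : ℝ))))

lemma big (j : ℕ) {t : ℝ} (h0 : 0 ≤ t) (ht : t ≤ p j) : t / p j * 2 ^ j / 3 ≤ ‖T t z‖ := by
  refine le_trans ?_ ((norm_snd_le _).trans (ap_le _ j))
  have hp := p1 j
  have hu := u1 j
  have h1 : (T t z j).2 = Real.exp (-(t / p j)) * (t / p j * 2 ^ j) := by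
    simp only [T_ap, B, z, mk, p]
    simp
    field_simp
  have h2 : 1 / 3 ≤ Real.exp (-(t / p j)) := by
    have : t / p j ≤ 1 := (div_le_one (by linarith)).2 ht
    refine le_trans ?_ (Real.exp_le_exp.2 (neg_le_neg this))
    linarith [Real.exp_neg_one_gt_d9]
  have h3 : 0 ≤ t / p j * 2 ^ j := by positivity
  rw [h1]
  exact le_trans (by nlinarith) (Real.le_norm_self _)

lemma u_top : Tendsto u atTop atTop := by
  refine tendsto_atTop_mono (fun j => ?_) a_top
  exact pow_le_pow_right₀ (by norm_num) (by nlinarith)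

theorem result : ∃ T : ℝ → C₀(ℕ, ℝ × ℝ) →L[ℝ] C₀(ℕ, ℝ × ℝ),
    T 0 = ContinuousLinearMap.id ℝ _ ∧ (∀ a b, T (a + b) = (T a).comp (T b)) ∧
    (∀ x, Continuous fun t => T t x) ∧
    (∃ X₀ : Submodule ℝ C₀(ℕ, ℝ × ℝ), Dense (X₀ : Set C₀(ℕ, ℝ × ℝ)) ∧
      ∀ x ∈ X₀, Tendsto (fun t => T t x) atTop (𝓝 0)) ∧
    DC T (fun t => 1 + t) ∧ ¬ DC T (fun t => (1 + t) ^ 2) := by
  refine ⟨T, T_zero, T_add, T_cont, ⟨⟨⟨⟨{x | Tendsto (fun t => T t x) atTop (𝓝 0)},
    fun hx hy => by simpa using Tendsto.add hx hy⟩, by simp⟩,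
    fun c x hx => by simpa using Tendsto.const_smul hx c⟩, ?_, fun x hx => hx⟩, ?_, ?_⟩
  · refine Metric.dense_iff.2 fun x ε hε => ?_
    obtain ⟨N, hN⟩ := eventually_atTop.1 ((tz x).norm.eventually_le_const
      (by simpa using half_pos hε : ‖(0 : ℝ × ℝ)‖ < ε / 2))
    let y : X := mk (fun j => if j < N then x j else 0) (tendsto_const_nhds.congr'
      ((eventually_ge_atTop N).mono fun j hj => by simp [hj]))
    have hy : ∀ j, y j = if j < N then x j else 0 := fun _ => rfl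
    refine ⟨y, ?_, ?_⟩
    · rw [Metric.mem_ball, dist_eq_norm]
      refine lt_of_le_of_lt (nm_le _ fun j => ?_) (half_lt_self hε)
      rw [ZeroAtInftyContinuousMap.sub_apply, hy]
      split_ifs with h
      · simpa using (half_pos hε).le
      · simpa using hN j (by omega)
    · refine Metric.tendsto_nhds.2 fun δ hδ => ?_
      have h1 : Tendsto (fun j : ℕ => ((2 : ℝ) ^ j)⁻¹ * ‖y‖) atTop (𝓝 0) := by
        simpa using a_top.inv_tendsto_atTop.mul_const ‖y‖
      obtain ⟨j, a, b⟩ := ((h1.eventually_lt_const hδ).and (eventually_ge_atTop N)).exists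
      filter_upwards [eventually_ge_atTop (s j)] with t ht
      rw [dist_zero_right]
      refine lt_of_le_of_lt (nm_le _ fun i => ?_) a
      rw [T_ap]
      rcases le_or_gt i j with h | h
      · exact (dec h ht _).trans (by gcongr; exact ap_le y i)
      · rw [hy, if_neg (by omega)]; simp [B]
  · have hz : z ≠ 0 := fun h => by simpa [z, mk] using congrArg (fun w : X => (w 0).1) h
    refine ⟨range (fun c : ℝ => c • z), fun h => ?_, 1, one_pos, ?_⟩
    · exact not_countable (α := ℝ) (countable_univ_iff.1 (countable_of_injective_of_countable_image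
        (smul_left_injective ℝ hz).injOn (by simpa using h)))
    rintro ε hε _ ⟨c, rfl⟩ _ ⟨d, rfl⟩ hne
    have hc : 0 < |c - d| := abs_pos.2 (sub_ne_zero.2 fun h => hne (by rw [h]))
    have hd : ∀ t, dist (T t (c • z)) (T t (d • z)) = |c - d| * ‖T t z‖ := fun t => by
      rw [dist_eq_norm, ← map_sub, show c • z - d • z = (c - d) • z from (sub_smul c d z).symm,
        map_smul, norm_smul, Real.norm_eq_abs]
    simp only [hd]
    constructor
    · refine ld_zero (τ := p) (b := fun j => 3 / |c - d| * (2 ^ j)⁻¹)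
        (tendsto_atTop_mono (fun j => le_mul_of_one_le_right (by linarith [u1 j])
          (one_le_pow₀ (a1 j))) u_top)
        (by simpa using a_top.inv_tendsto_atTop.const_mul (3 / |c - d|))
        (Eventually.of_forall fun j t ⟨⟨h0, h1⟩, _, h2⟩ => ⟨h0, ?_⟩)
      have h3 := mul_le_mul_of_nonneg_left (big j h0 h2) hc.le
      have hp := p1 j
      have h4 : |c - d| * (t / p j * 2 ^ j / 3) = t / (3 / |c - d| * (2 ^ j)⁻¹ * p j) := by
        field_simp
      rw [h4] at h3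
      exact (div_le_one (by positivity)).1 (h3.trans h1.le)
    · refine ld_zero (τ := fun j => u (j + 1)) (b := fun j => (2 ^ j)⁻¹)
        (u_top.comp (tendsto_add_atTop_nat 1)) a_top.inv_tendsto_atTop
        ((key z (div_pos hε hc)).mono fun j hj t ⟨⟨h0, h1⟩, _, h2⟩ => ⟨h0, ?_⟩)
      by_contra h3
      have h4 : (2 ^ j)⁻¹ * u (j + 1) = 2 * s j := by rw [u_succ]; field_simp
      have := hj t ⟨by linarith [s_pos j], h2⟩
      rw [lt_div_iff₀' hc] at this
      linarith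
  · rintro ⟨S, hS, σ, hσ, h⟩
    obtain ⟨x, hx, y, hy, hne⟩ := not_subsingleton_iff.1 fun h1 => hS h1.finite.countable
    refine absurd (h 1 one_pos x hx y hy hne).1 (ne_of_gt (lt_of_lt_of_le one_pos ?_))
    refine le_liminf_of_le (by isBoundedDefault) ?_
    obtain ⟨J, hJ⟩ := eventually_atTop.1 (key (x - y) hσ)
    filter_upwards [eventually_ge_atTop (u (J + 3))] with t ht
    have ht1 : 1 ≤ t := (u1 _).trans ht
    have hex : ∃ k, (1 + t) ^ 2 < u k := (u_top.eventually_gt_atTop _).exists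
    classical
    have h1 := Nat.find_spec hex
    have h2 : J + 3 < Nat.find hex := by
      by_contra h3
      nlinarith [u_mono (not_lt.1 h3)]
    obtain ⟨j, hj⟩ : ∃ j, Nat.find hex = j + 2 := ⟨Nat.find hex - 2, by omega⟩
    have h3 := not_lt.1 (Nat.find_min hex (by omega : j + 1 < Nat.find hex))
    rw [hj] at h1 h2
    rw [ENNReal.le_div_iff_mul_le (Or.inl (by simp; linarith)) (Or.inl (by simp)), one_mul]
    refine le_trans ?_ (measure_mono (s := Icc (s j) (u (j + 1))) fun r hr =>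
      ⟨⟨(s_pos j).le.trans hr.1, ?_⟩, (s_pos j).le.trans hr.1, hr.2.trans h3⟩)
    · rw [Real.volume_Icc]
      refine ENNReal.ofReal_le_ofReal ?_
      have h4 : u (j + 2) ≤ (u (j + 1) / 2) ^ 2 := by
        rw [div_pow, le_div_iff₀ (by norm_num), u, u, ← pow_mul, ← pow_add]
        gcongr
        · norm_num
        · nlinarith [(by omega : 2 ≤ j)]
      have h5 := lt_of_pow_lt_pow_left₀ 2 (by linarith [u1 (j + 1)]) (h1.trans_le h4)
      have h6 := u_succ j
      nlinarith [a1 j, s_pos j]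
    · rw [dist_eq_norm, ← map_sub]
      exact hJ j (by omega) r hr

end Pool.Agent.Results.MP_8cea72_an.No
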